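import Pool.Agent.H336R5.PS.Defs

/-!
PSUM, task H: choice of the primes.
-/

set_option autoImplicit false

namespace Pool.Agent.H927R5.PS

open Filter Topology Pool.Agent.H336R5.PS

theorem log_small (ε : ℝ) (hε : 0 < ε) : ∀ᶠ y : ℝ in atTop, Real.log y ≤ ε * y := by
  have h := Real.isLittleO_log_id_atTop.bound hε
  filter_upwards [h, eventually_ge_atTop (1 : ℝ)] with y hy h1
  rw [Real.norm_of_nonneg (Real.log_nonneg h1)] at hy
  have h2 : ‖id y‖ = y := by
    simp only [id]
    exact Real.norm_of_nonneg (by linarith)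
  rw [h2] at hy
  exact hy

theorem taskH : TaskH := by
  obtain ⟨Y0, hY0⟩ := eventually_atTop.1 (log_small (1/1000) (by norm_num))
  refine ⟨1 / Real.pi / 200, by positivity, ?_⟩
  have hL : ∀ᶠ N : ℕ in atTop, 4 * |Y0| + 100 ≤ Real.log (N : ℝ) :=
    (Real.tendsto_log_atTop.comp tendsto_natCast_atTop_atTop).eventually_ge_atTop _
  filter_upwards [hL, eventually_ge_atTop 1] with N hN hN1
  set L := Real.log (N : ℝ) with hLd
  have hY := le_abs_self Y0
  have hY' := abs_nonneg Y0
  have hl2a := Real.log_two_gt_d9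
  have hl2b := Real.log_two_lt_d9
  have hl4 : Real.log 4 = 2 * Real.log 2 := by
    rw [show (4 : ℝ) = 2 ^ 2 by norm_num, Real.log_pow]; norm_num
  set n := ⌊L / (2 * Real.log 4)⌋₊ with hn
  have hn1 : (n : ℝ) ≤ L / (2 * Real.log 4) := Nat.floor_le (by positivity)
  have hn2 : L / (2 * Real.log 4) < n + 1 := Nat.lt_floor_add_one _
  have hpos : 0 < 2 * Real.log 4 := by rw [hl4]; linarith
  rw [le_div_iff₀ hpos] at hn1
  rw [div_lt_iff₀ hpos] at hn2
  have hnn : (0 : ℝ) ≤ n := Nat.cast_nonneg n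
  have hn3 : L / 4 ≤ n := by
    rw [hl4] at hn2
    nlinarith
  have hn4 : (n : ℝ) ≤ L := by
    rw [hl4] at hn1
    nlinarith
  refine ⟨(Finset.range (n + 1)).filter Nat.Prime, ?_, ?_, ?_⟩
  · intro p hp
    exact (Finset.mem_filter.1 hp).2
  · have h1 : D ((Finset.range (n + 1)).filter Nat.Prime) ≤ 4 ^ n := primorial_le_four_pow n
    have h2 : D ((Finset.range (n + 1)).filter Nat.Prime) ^ 2 ≤ (4 ^ n) ^ 2 :=
      Nat.pow_le_pow_left h1 2
    refine le_trans h2 ?_
    have hNpos : (0 : ℝ) < N := by exact_mod_cast hN1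
    have h3 : ((4 : ℝ) ^ n) ^ 2 ≤ N := by
      rw [← Real.log_le_log_iff (by positivity) hNpos, Real.log_pow, Real.log_pow]
      push_cast
      linarith
    exact_mod_cast h3
  · have hcard : ((Finset.range (n + 1)).filter Nat.Prime).card = Nat.primeCounting n := by
      rw [Nat.primeCounting, Nat.primeCounting', Nat.count_eq_card_filter_range]
    rw [hcard]
    have hpi := Chebyshev.pi_ge n
    have hlog1 : Real.log ((n : ℝ) + 1) ≤ 1/1000 * (n + 1) := hY0 _ (by linarith)
    have hlogL : Real.log L ≤ 1/1000 * L := hY0 _ (by linarith)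
    have hlogn : 0 < Real.log (n : ℝ) := Real.log_pos (by linarith)
    have hlognL : Real.log (n : ℝ) ≤ Real.log L := Real.log_le_log (by linarith) hn4
    have hlogL0 : 0 < Real.log L := lt_of_lt_of_le hlogn hlognL
    have h1 : L / 8 / Real.log L ≤ (n * Real.log 2 - Real.log (n + 1)) / Real.log n := by
      apply div_le_div₀ _ _ hlogn hlognL
      · nlinarith
      · nlinarith
    have h2 : L / 8 / Real.log L ≤ (Nat.primeCounting n : ℝ) := le_trans h1 hpi
    have h3 : 1000 ≤ L / Real.log L := by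
      rw [le_div_iff₀ hlogL0]; linarith
    have h4 : L / 8 / Real.log L = (L / Real.log L) / 8 := by ring
    rw [h4] at h2
    have h5 : 1 / Real.pi / 200 * (L / Real.log L) = 1 / Real.pi * ((L / Real.log L) / 200) := by
      ring
    rw [h5]
    apply mul_le_mul_of_nonneg_left _ (by positivity)
    linarith

end Pool.Agent.H927R5.PS
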